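import Pool.Agent.Q78.WI.Stm

/-!
# Project WI, job E5a (helper87): limit of the Laplace transforms
-/

set_option autoImplicit false

open MeasureTheory ProbabilityTheory Filter Topology Set
open scoped NNReal Matrix

namespace Pool.Agent.Q87.WI

open Pool.Agent.Q78.WI

universe v

namespace E5a

theorem psd_factor {d : ℕ} (A : Matrix (Fin d) (Fin d) ℝ) (hA : A.PosSemidef) :
    ∃ P : Matrix (Fin d) (Fin d) ℝ, A = Pᴴ * P := by
  open scoped MatrixOrder in
  exact CStarAlgebra.nonneg_iff_eq_star_mul_self.mp hA.nonneg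

theorem trace_mul_nonneg {d : ℕ} (A B : Matrix (Fin d) (Fin d) ℝ) (hA : A.PosSemidef)
    (hB : B.PosSemidef) : 0 ≤ (A * B).trace := by
  obtain ⟨P, rfl⟩ := psd_factor B hB
  rw [← Matrix.mul_assoc, Matrix.trace_mul_comm, ← Matrix.mul_assoc]
  exact (hA.mul_mul_conjTranspose_same P).trace_nonneg

theorem measurable_trace {Ω : Type v} [MeasurableSpace Ω] {d : ℕ}
    (K : Matrix (Fin d) (Fin d) ℝ) (N : Ω → Matrix (Fin d) (Fin d) ℝ)
    (hN : ∀ i j, Measurable fun ω => N ω i j) : Measurable fun ω => (K * N ω).trace := by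
  have h1 : (fun ω => (K * N ω).trace) = fun ω => ∑ i, ∑ j, K i j * N ω j i := by
    funext ω
    rfl
  rw [h1]
  exact Finset.measurable_sum _ fun i _ => Finset.measurable_sum _ fun j _ =>
    (hN j i).const_mul _

/-- the matrices converge to the identity -/
theorem tendsto_inv {d : ℕ} (G : Matrix (Fin d) (Fin d) ℝ) :
    Tendsto (fun n : ℕ => (((n : ℝ)⁻¹ • G⁻¹) + 1)⁻¹) atTop
      (𝓝 (1 : Matrix (Fin d) (Fin d) ℝ)) := by
  have h0 : Tendsto (fun n : ℕ => (n : ℝ)⁻¹) atTop (𝓝 0) := tendsto_inv_atTop_nhds_zero_nat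
  have h1 : Tendsto (fun n : ℕ => ((n : ℝ)⁻¹ • G⁻¹) + 1) atTop
      (𝓝 (1 : Matrix (Fin d) (Fin d) ℝ)) := by
    have h2 := (h0.smul_const G⁻¹).add_const (1 : Matrix (Fin d) (Fin d) ℝ)
    rwa [zero_smul, zero_add] at h2
  have h3 : ContinuousAt (Inv.inv : Matrix (Fin d) (Fin d) ℝ → _) 1 := by
    refine continuousAt_matrix_inv _ ?_
    rw [Matrix.det_one]
    exact NormedRing.inverse_continuousAt (1 : ℝˣ)
  have h4 := h3.tendsto.comp h1
  rwa [inv_one] at h4

theorem tendsto_int {Ω : Type v} [MeasurableSpace Ω] (P : Measure Ω) [IsProbabilityMeasure P]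
    {d : ℕ} (N : Ω → Matrix (Fin d) (Fin d) ℝ) (hN : ∀ i j, Measurable fun ω => N ω i j)
    (hp : ∀ ω, (N ω).PosSemidef) (G : Matrix (Fin d) (Fin d) ℝ) (hG : G.PosDef) :
    Tendsto (fun n : ℕ => ∫ ω, Real.exp (-((((n : ℝ)⁻¹ • G⁻¹) + 1)⁻¹ * N ω).trace) ∂P) atTop
      (𝓝 (∫ ω, Real.exp (-(N ω).trace) ∂P)) := by
  refine tendsto_integral_of_dominated_convergence (fun _ => (1 : ℝ)) ?_ (integrable_const _)
    ?_ ?_
  · intro n
    exact (Real.measurable_exp.comp (measurable_trace _ N hN).neg).aestronglyMeasurable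
  · intro n
    refine Filter.Eventually.of_forall fun ω => ?_
    rw [Real.norm_eq_abs, abs_of_pos (Real.exp_pos _)]
    refine Real.exp_le_one_iff.2 ?_
    have hps : (((n : ℝ)⁻¹ • G⁻¹) + 1).PosSemidef :=
      (hG.inv.posSemidef.smul (by positivity)).add Matrix.PosSemidef.one
    have := trace_mul_nonneg _ _ hps.inv (hp ω)
    linarith
  · refine Filter.Eventually.of_forall fun ω => ?_
    have h1 : Continuous fun K : Matrix (Fin d) (Fin d) ℝ => Real.exp (-(K * N ω).trace) := by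
      refine Real.continuous_exp.comp (Continuous.neg ?_)
      exact (continuous_id.matrix_mul continuous_const).matrix_trace
    have h2 := (h1.tendsto 1).comp (tendsto_inv G)
    rw [one_mul] at h2
    exact h2

theorem tendsto_det {d : ℕ} (α : ℝ) (G : Matrix (Fin d) (Fin d) ℝ) (hG : G.PosDef) :
    Tendsto (fun n : ℕ => (((n : ℝ)⁻¹ • (1 : Matrix (Fin d) (Fin d) ℝ)) + G).det ^ (-(α / 2)))
      atTop (𝓝 (G.det ^ (-(α / 2)))) := by
  have h0 : Tendsto (fun n : ℕ => (n : ℝ)⁻¹) atTop (𝓝 0) := tendsto_inv_atTop_nhds_zero_nat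
  have h1 : Tendsto (fun n : ℕ => ((n : ℝ)⁻¹ • (1 : Matrix (Fin d) (Fin d) ℝ)) + G) atTop
      (𝓝 G) := by
    have h2 := (h0.smul_const (1 : Matrix (Fin d) (Fin d) ℝ)).add_const G
    rwa [zero_smul, zero_add] at h2
  have h3 : Continuous fun K : Matrix (Fin d) (Fin d) ℝ => K.det := continuous_id.matrix_det
  have h4 := (h3.tendsto G).comp h1
  exact h4.rpow_const (Or.inl hG.det_pos.ne')

end E5a

open E5a in
theorem e5a : S_E5a.{v} := by
  intro Ω _ P _ α d M N W h t hG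
  set G : Matrix (Fin d) (Fin d) ℝ := 1 + t • h with hGdef
  have key : ∀ n : ℕ, 1 ≤ n →
      ∫ ω, Real.exp (-(t * Yn h (M ω) n)) * wt α (M ω) n ∂P =
        (∫ ω, Real.exp (-((((n : ℝ)⁻¹ • G⁻¹) + 1)⁻¹ * N ω).trace) ∂P) *
          (((n : ℝ)⁻¹ • (1 : Matrix (Fin d) (Fin d) ℝ)) + G).det ^ (-(α / 2)) := by
    intro n hn
    have hn0 : (0 : ℝ) < n := by exact_mod_cast hn
    have hu : ((n : ℝ) • G).PosDef := hG.smul hn0
    have hid := W.ident _ hu
    have e1 : ∀ ω, Real.exp (-(t * Yn h (M ω) n)) * wt α (M ω) n =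
        (n : ℝ) ^ ((d : ℝ) * α / 2) * Real.exp (-((((n : ℝ) • G) * M ω).trace)) := by
      intro ω
      have e2 : (((n : ℝ) • G) * M ω).trace = n * ((M ω).trace + t * (h * M ω).trace) := by
        rw [hGdef, Matrix.smul_mul, Matrix.trace_smul, Matrix.add_mul, Matrix.trace_add,
          Matrix.one_mul, Matrix.smul_mul, Matrix.trace_smul, smul_eq_mul, smul_eq_mul]
      rw [e2]
      unfold Yn wt
      rw [show -((n : ℝ) * ((M ω).trace + t * (h * M ω).trace)) =
        -(t * ((n : ℝ) * (h * M ω).trace)) + -((n : ℝ) * (M ω).trace) by ring, Real.exp_add]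
      ring
    have e3 : (((n : ℝ) • G)⁻¹ + 1)⁻¹ = (((n : ℝ)⁻¹ • G⁻¹) + 1)⁻¹ := by
      congr 2
      have hdet : IsUnit G.det := hG.det_pos.ne'.isUnit
      refine Matrix.inv_eq_right_inv ?_
      rw [Matrix.smul_mul, Matrix.mul_smul, Matrix.mul_nonsing_inv _ hdet, smul_smul,
        mul_inv_cancel₀ hn0.ne', one_smul]
    have e4 : (1 + (n : ℝ) • G).det =
        (n : ℝ) ^ d * (((n : ℝ)⁻¹ • (1 : Matrix (Fin d) (Fin d) ℝ)) + G).det := by
      have e5 : (1 + (n : ℝ) • G) =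
          (n : ℝ) • (((n : ℝ)⁻¹ • (1 : Matrix (Fin d) (Fin d) ℝ)) + G) := by
        rw [smul_add (n : ℝ) ((n : ℝ)⁻¹ • (1 : Matrix (Fin d) (Fin d) ℝ)) G, smul_smul,
          mul_inv_cancel₀ hn0.ne', one_smul]
      rw [e5, Matrix.det_smul, Fintype.card_fin]
    have hpos : 0 < (((n : ℝ)⁻¹ • (1 : Matrix (Fin d) (Fin d) ℝ)) + G).det :=
      (Matrix.PosDef.posSemidef_add (Matrix.PosSemidef.one.smul (inv_nonneg.2 hn0.le)) hG).det_pos
    have e6 : (n : ℝ) ^ ((d : ℝ) * α / 2) * (1 + (n : ℝ) • G).det ^ (-(α / 2)) =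
        (((n : ℝ)⁻¹ • (1 : Matrix (Fin d) (Fin d) ℝ)) + G).det ^ (-(α / 2)) := by
      rw [e4, Real.mul_rpow (by positivity) hpos.le, ← mul_assoc, ← Real.rpow_natCast,
        ← Real.rpow_mul hn0.le, ← Real.rpow_add hn0]
      rw [show (d : ℝ) * α / 2 + (d : ℝ) * -(α / 2) = 0 by ring, Real.rpow_zero, one_mul]
    rw [integral_congr_ae (Filter.Eventually.of_forall e1), integral_const_mul, hid, e3,
      ← mul_assoc, e6, mul_comm]
  have hlim := (tendsto_int P N W.measN W.posN G hG).mul (tendsto_det α G hG)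
  refine hlim.congr' ?_
  filter_upwards [eventually_ge_atTop 1] with n hn
  exact (key n hn).symm

end Pool.Agent.Q87.WI
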